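import Pool.Agent.Run7.h317.LV.Fin

/-!
# Values of periodic Dirichlet series outside number fields (periods of mixed Tate Nori motives)

For a function `f` of period `M` with algebraic values the numbers `L(i, f) = ∑ f(n) / n^i`, `i ≥ 2`, are periods of
mixed Tate Nori motives over `ℚbar` (extensions of `ℚ(0)` by `ℚ(i)`): the values of all Dirichlet `L`-functions, the
values `ζ(i, a/M)` of the Hurwitz zeta function, `β(i)`, the Clausen values. The period conjecture predicts that
`L(i, f)` is transcendental for every `i ≥ 2` and every `f ≠ 0` with algebraic values.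

We prove for both parities of `i` that many of these numbers are not in a given number field `K`, with constants
which depend on nothing: the count `c √(s log log s / (D M log s))` holds for all `f` with values in `K` (of any height),
all periods `M` with `D M ≤ c s log log s / log s` and all `K` of degree `D ≤ c log log s`.

Method. Hankel determinants of the functional
`Q ↦ ∑_{d ≤ B} w_d ∑_{u > M d} f(u) R(u/(M d)) Q(y(u/(M d)))`, `y(t) = t(t+n-1)`,
`R(t) = (2t+n-1)^e / (t(t+1)…(t+n-1))^(2h)`; its values on polynomials are linear forms in `1` and the numbers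
`L(i, f)`, `2 ≤ i ≤ 2h`, `i + e` even, with coefficients in the field of the values of `f`. The weights `w_d` kill
those `L(i, f)` which are not in `K`, if there are fewer than `B` of them. The determinants do not vanish (a
Gauss quadrature argument), they are small at the given place, not too large at the other places, and their
denominators are controlled prime by prime. The case `f = 1` is `Pool/Agent/W165/OZ` (helper165 and others), from
which the files `Pool/Agent/Run7/h317/LV` are adapted.
-/

set_option autoImplicit false

namespace Pool.Agent.Results.MP_ae0f86_nt.PeriodicDirichletSeries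

/-- **Values of periodic Dirichlet series outside number fields.** There are `c > 0` and `s₀` such that for all
`s ≥ s₀`, every number field `K ⊆ ℂ` of degree `D ≤ c log log s` which is stable under complex conjugation, every
`M ≥ 1` with `D M ≤ c s log log s / log s`, every function `f ≠ 0` of period `M` with values in `K`, and both
parities `a`: at least `c √(s log log s / (D M log s))` of the integers `i ≡ a (mod 2)` with `2 ≤ i ≤ s` have
`∑_{n ≥ 1} f(n) / n^i ∉ K`. -/
theorem result : ∃ c : ℝ, 0 < c ∧ ∃ s0 : ℕ, ∀ s ≥ s0, ∀ K : IntermediateField ℚ ℂ,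
    FiniteDimensional ℚ K → (∀ z ∈ K, (starRingEnd ℂ) z ∈ K) → ∀ M : ℕ, 1 ≤ M →
    (Module.finrank ℚ K : ℝ) ≤ c * Real.log (Real.log s) →
    (Module.finrank ℚ K : ℝ) * M ≤ c * (s * Real.log (Real.log s) / Real.log s) →
    ∀ f : ℕ → ℂ, (∀ n, f n ∈ K) → (∀ n, f (n + M) = f n) → (∃ n, f n ≠ 0) → ∀ a < 2,
    c * Real.sqrt (s * Real.log (Real.log s) / (Module.finrank ℚ K * M * Real.log s)) ≤
      (Set.ncard {i : ℕ | 2 ≤ i ∧ i ≤ s ∧ i % 2 = a ∧
        (∑' n : ℕ, f (n + 1) / ((n : ℂ) + 1) ^ i) ∉ K} : ℝ) :=
  Run7.h317.LV.z_final

end Pool.Agent.Results.MP_ae0f86_nt.PeriodicDirichletSeries
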